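import Mathlib

set_option autoImplicit false

/-!
Matchings, fractional vertex covers and stability of weighted graphs.
-/

namespace Pool.Agent.H586R2.EA

variable {V : Type}

/-- `M` is a matching of `G`: a set of edges of `G`, no two of which share a vertex. -/
def IsMatching (G : SimpleGraph V) (M : Finset (Sym2 V)) : Prop :=
  (∀ e ∈ M, e ∈ G.edgeSet) ∧ ∀ e ∈ M, ∀ f ∈ M, ∀ v, v ∈ e → v ∈ f → e = f

/-- `ν(G,w)`: the maximum weight of a matching of `G`. -/
noncomputable def nu (G : SimpleGraph V) (w : Sym2 V → ℝ) : ℝ :=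
  sSup {x : ℝ | ∃ M : Finset (Sym2 V), IsMatching G M ∧ x = ∑ e ∈ M, w e}

/-- `y` is a fractional `w`-vertex cover of `G`. -/
def IsCover (G : SimpleGraph V) (w : Sym2 V → ℝ) (y : V → ℝ) : Prop :=
  (∀ v, 0 ≤ y v) ∧ ∀ u v, G.Adj u v → w s(u, v) ≤ y u + y v

/-- `τ_f(G,w)`: the minimum size of a fractional `w`-vertex cover of `G`. -/
noncomputable def tau [Fintype V] (G : SimpleGraph V) (w : Sym2 V → ℝ) : ℝ :=
  sInf {x : ℝ | ∃ y : V → ℝ, IsCover G w y ∧ x = ∑ v, y v}

/-- The weighted graph `(G,w)` is stable: `ν(G,w) = τ_f(G,w)`. -/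
def Stable [Fintype V] (G : SimpleGraph V) (w : Sym2 V → ℝ) : Prop := nu G w = tau G w

end Pool.Agent.H586R2.EA
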