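import Mathlib
import Pool.Agent.H586R2.EA.Defs

set_option autoImplicit false

namespace Pool.Agent.H586R2.EA

open Finset

variable {V : Type} [Fintype V] [DecidableEq V]

/-- sum of `y` over the two ends of an edge -/
def ends (y : V → ℝ) : Sym2 V → ℝ := Sym2.lift ⟨fun u v => y u + y v, fun u v => add_comm _ _⟩

@[simp] theorem ends_mk (y : V → ℝ) (u v : V) : ends y s(u, v) = y u + y v := rfl

/-- the covered vertices -/
def covered (M : Finset (Sym2 V)) : Finset V := univ.filter (fun v => ∃ e ∈ M, v ∈ e)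

theorem mem_covered {M : Finset (Sym2 V)} {v : V} : v ∈ covered M ↔ ∃ e ∈ M, v ∈ e := by
  simp [covered]

theorem sum_ends {G : SimpleGraph V} {M : Finset (Sym2 V)} (hM : IsMatching G M) (y : V → ℝ) :
    ∑ e ∈ M, ends y e = ∑ v ∈ covered M, y v := by
  have h1 : covered M = M.biUnion (fun e => e.toFinset) := by
    ext v
    rw [mem_covered, mem_biUnion]
    simp [Sym2.mem_toFinset]
  rw [h1, sum_biUnion]
  · apply sum_congr rfl
    intro e he
    have hG := hM.1 e he
    induction e with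
    | _ u v =>
      have hne : u ≠ v := G.ne_of_adj hG
      rw [ends_mk]
      have : (s(u, v)).toFinset = {u, v} := by
        ext x; simp [Sym2.mem_toFinset]
      rw [this, sum_pair hne]
  · intro e he f hf hef
    rw [Function.onFun, disjoint_left]
    intro v hv hv'
    rw [Sym2.mem_toFinset] at hv hv'
    exact hef (hM.2 e he f hf v hv hv')

theorem weight_le {G : SimpleGraph V} {w : Sym2 V → ℝ} {M : Finset (Sym2 V)} {y : V → ℝ}
    (hM : IsMatching G M) (hy : IsCover G w y) : ∑ e ∈ M, w e ≤ ∑ v, y v := by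
  calc ∑ e ∈ M, w e ≤ ∑ e ∈ M, ends y e := by
        apply sum_le_sum
        intro e he
        have hG := hM.1 e he
        induction e with
        | _ u v => exact hy.2 u v hG
    _ = ∑ v ∈ covered M, y v := sum_ends hM y
    _ ≤ ∑ v, y v := sum_le_sum_of_subset_of_nonneg (subset_univ _) (fun v _ _ => hy.1 v)

theorem isMatching_empty (G : SimpleGraph V) : IsMatching G ∅ := by
  constructor <;> simp

/-- every weighted graph has a fractional vertex cover -/
theorem exists_cover (G : SimpleGraph V) (w : Sym2 V → ℝ) : ∃ y, IsCover G w y := by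
  refine ⟨fun _ => ∑ e, |w e|, fun v => sum_nonneg (fun e _ => abs_nonneg _), fun u v _ => ?_⟩
  have h1 : |w s(u, v)| ≤ ∑ e, |w e| := single_le_sum (fun e _ => abs_nonneg (w e)) (mem_univ _)
  have h2 := le_abs_self (w s(u, v))
  have h3 : 0 ≤ ∑ e, |w e| := sum_nonneg (fun e _ => abs_nonneg _)
  linarith

theorem exists_max_matching (G : SimpleGraph V) (w : Sym2 V → ℝ) :
    ∃ M, IsMatching G M ∧ nu G w = ∑ e ∈ M, w e := by
  classical
  obtain ⟨M, hM, hmax⟩ := exists_max_image
    ((univ : Finset (Finset (Sym2 V))).filter (fun M => IsMatching G M)) (fun M => ∑ e ∈ M, w e)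
    ⟨∅, by simp [isMatching_empty]⟩
  rw [mem_filter] at hM
  refine ⟨M, hM.2, ?_⟩
  apply IsGreatest.csSup_eq
  refine ⟨⟨M, hM.2, rfl⟩, ?_⟩
  rintro x ⟨M', hM', rfl⟩
  exact hmax M' (by simp [hM'])

theorem exists_min_cover (G : SimpleGraph V) (w : Sym2 V → ℝ) :
    ∃ y, IsCover G w y ∧ tau G w = ∑ v, y v := by
  obtain ⟨y₀, hy₀⟩ := exists_cover G w
  set C := ∑ v, y₀ v with hC
  set K : Set (V → ℝ) := {y | IsCover G w y ∧ ∑ v, y v ≤ C} with hK
  have hclosed : IsClosed K := by
    have : K = (⋂ v, {y : V → ℝ | 0 ≤ y v}) ∩ (⋂ u, ⋂ v, ⋂ (_ : G.Adj u v), {y : V → ℝ | w s(u, v) ≤ y u + y v})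
        ∩ {y : V → ℝ | ∑ v, y v ≤ C} := by
      ext y
      simp only [hK, IsCover, Set.mem_setOf_eq, Set.mem_inter_iff, Set.mem_iInter]
    rw [this]
    refine ((isClosed_iInter fun v => isClosed_le continuous_const (continuous_apply v)).inter
      (isClosed_iInter fun u => isClosed_iInter fun v => isClosed_iInter fun _ =>
        isClosed_le continuous_const ((continuous_apply u).add (continuous_apply v)))).inter
      (isClosed_le (continuous_finsetSum _ fun v _ => continuous_apply v) continuous_const)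
  have hsub : K ⊆ Set.Icc (0 : V → ℝ) (fun _ => C) := by
    rintro y ⟨hy, hyC⟩
    refine ⟨fun v => hy.1 v, fun v => ?_⟩
    exact (single_le_sum (fun u _ => hy.1 u) (mem_univ v)).trans hyC
  have hcomp : IsCompact K := isCompact_Icc.of_isClosed_subset hclosed hsub
  have hcont : ContinuousOn (fun y : V → ℝ => ∑ v, y v) K :=
    (continuous_finsetSum _ fun v _ => continuous_apply v).continuousOn
  obtain ⟨y, hy, hmin⟩ := hcomp.exists_isMinOn ⟨y₀, hy₀, le_refl _⟩ hcont
  refine ⟨y, hy.1, ?_⟩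
  apply IsLeast.csInf_eq
  refine ⟨⟨y, hy.1, rfl⟩, ?_⟩
  rintro x ⟨y', hy', rfl⟩
  by_cases h : ∑ v, y' v ≤ C
  · exact hmin ⟨hy', h⟩
  · exact hy.2.trans (le_of_not_ge h)

/-- stability: there is a matching and a cover of the same size -/
theorem stable_iff (G : SimpleGraph V) (w : Sym2 V → ℝ) :
    Stable G w ↔ ∃ M y, IsMatching G M ∧ IsCover G w y ∧ ∑ e ∈ M, w e = ∑ v, y v := by
  obtain ⟨M, hM, hnu⟩ := exists_max_matching G w
  obtain ⟨y, hy, htau⟩ := exists_min_cover G w
  constructor
  · intro h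
    refine ⟨M, y, hM, hy, ?_⟩
    rw [← hnu, ← htau]
    exact h
  · rintro ⟨M', y', hM', hy', h⟩
    unfold Stable
    have h1 : ∑ e ∈ M', w e ≤ nu G w := by
      rw [hnu]
      have hb : IsGreatest {x : ℝ | ∃ M : Finset (Sym2 V), IsMatching G M ∧ x = ∑ e ∈ M, w e}
          (nu G w) := by
        classical
        obtain ⟨N, hN, hmax⟩ := exists_max_image
          ((univ : Finset (Finset (Sym2 V))).filter (fun M => IsMatching G M))
          (fun M => ∑ e ∈ M, w e) ⟨∅, by simp [isMatching_empty]⟩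
        rw [mem_filter] at hN
        have hg : IsGreatest {x : ℝ | ∃ M : Finset (Sym2 V), IsMatching G M ∧ x = ∑ e ∈ M, w e}
            (∑ e ∈ N, w e) := by
          refine ⟨⟨N, hN.2, rfl⟩, ?_⟩
          rintro x ⟨M', hM', rfl⟩
          exact hmax M' (by simp [hM'])
        have : nu G w = ∑ e ∈ N, w e := hg.csSup_eq
        rw [this]
        exact hg
      rw [← hnu]
      exact hb.2 ⟨M', hM', rfl⟩
    have h2 : tau G w ≤ ∑ v, y' v := by
      apply csInf_le
      · refine ⟨0, ?_⟩
        rintro x ⟨z, hz, rfl⟩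
        exact sum_nonneg (fun v _ => hz.1 v)
      · exact ⟨y', hy', rfl⟩
    have h3 : nu G w ≤ tau G w := by
      rw [hnu, htau]
      exact weight_le hM hy
    linarith

/-- complementary slackness -/
theorem slack {G : SimpleGraph V} {w : Sym2 V → ℝ} {M : Finset (Sym2 V)} {y : V → ℝ}
    (hM : IsMatching G M) (hy : IsCover G w y) (h : ∑ e ∈ M, w e = ∑ v, y v) :
    (∀ e ∈ M, w e = ends y e) ∧ ∀ v, v ∉ covered M → y v = 0 := by
  have hle : ∀ e ∈ M, w e ≤ ends y e := by
    intro e he
    have hG := hM.1 e he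
    induction e with
    | _ u v => exact hy.2 u v hG
  have h1 : ∑ e ∈ M, w e ≤ ∑ e ∈ M, ends y e := sum_le_sum hle
  have h2 := sum_ends hM y
  have h3 : ∑ v ∈ covered M, y v ≤ ∑ v, y v :=
    sum_le_sum_of_subset_of_nonneg (subset_univ _) (fun v _ _ => hy.1 v)
  have h4 : ∑ e ∈ M, w e = ∑ e ∈ M, ends y e := by linarith
  have h5 : ∑ v ∈ covered M, y v = ∑ v, y v := by linarith
  constructor
  · exact (sum_eq_sum_iff_of_le hle).1 h4
  · intro v hv
    have h6 : ∑ v ∈ (covered M)ᶜ, y v = 0 := by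
      have := sum_add_sum_compl (covered M) y
      linarith
    exact (sum_eq_zero_iff_of_nonneg (fun v _ => hy.1 v)).1 h6 v (by simpa using hv)

/-- converse of complementary slackness -/
theorem sum_eq_of_slack {G : SimpleGraph V} {w : Sym2 V → ℝ} {M : Finset (Sym2 V)} {y : V → ℝ}
    (hM : IsMatching G M) (h1 : ∀ e ∈ M, w e = ends y e) (h2 : ∀ v, v ∉ covered M → y v = 0) :
    ∑ e ∈ M, w e = ∑ v, y v := by
  rw [sum_congr rfl h1, sum_ends hM y]
  apply sum_subset (subset_univ _)
  intro v _ hv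
  exact h2 v hv

end Pool.Agent.H586R2.EA
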