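import Mathlib
import Pool.Agent.H586R2.EA.Basic

set_option autoImplicit false
set_option linter.unusedSectionVars false

namespace Pool.Agent.H586R2.EA

open Finset

/-- The combinatorial layout of the gadget graph. The kinds `0,1,2` are the corners of the triangle
of a group (`0` is the exposed corner), `3` is an occurrence, `4` its private companion. `grp` is
the group, `pos` the position within the group. `conf` is the conflict relation. -/
structure Layout (V : Type) where
  kind : V → ℕ
  grp : V → ℕ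
  pos : V → ℕ
  conf : V → V → Prop
  kind_lt : ∀ v, kind v < 5
  inj : ∀ u v, kind u = kind v → grp u = grp v → pos u = pos v → u = v
  tri : ∀ v, ∀ t < 3, ∃ u, kind u = t ∧ grp u = grp v
  tri_pos : ∀ v, kind v < 3 → pos v = 0
  comp : ∀ v, kind v = 3 → ∃ u, kind u = 4 ∧ grp u = grp v ∧ pos u = pos v
  comp' : ∀ v, kind v = 4 → ∃ u, kind u = 3 ∧ grp u = grp v ∧ pos u = pos v
  conf_symm : ∀ u v, conf u v → conf v u
  conf_kind : ∀ u v, conf u v → kind u = 3 ∧ kind v = 3 ∧ u ≠ v

namespace Layout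

variable {V : Type} (L : Layout V)

/-- two corners of the triangle of one group -/
def triEdge (u v : V) : Prop := L.kind u < 3 ∧ L.kind v < 3 ∧ L.kind u ≠ L.kind v ∧ L.grp u = L.grp v

/-- exposed corner and occurrence of the same group -/
def linkEdge (u v : V) : Prop := L.grp u = L.grp v ∧
  ((L.kind u = 0 ∧ L.kind v = 3) ∨ (L.kind u = 3 ∧ L.kind v = 0))

/-- occurrence and its companion -/
def compEdge (u v : V) : Prop := L.grp u = L.grp v ∧ L.pos u = L.pos v ∧
  ((L.kind u = 3 ∧ L.kind v = 4) ∨ (L.kind u = 4 ∧ L.kind v = 3))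

/-- the given graph -/
def graph : SimpleGraph V where
  Adj u v := L.triEdge u v ∨ L.conf u v
  symm := ⟨by
    rintro u v (⟨h1, h2, h3, h4⟩ | h)
    · exact Or.inl ⟨h2, h1, h3.symm, h4.symm⟩
    · exact Or.inr (L.conf_symm _ _ h)⟩
  loopless := ⟨by
    rintro u (⟨_, _, h3, _⟩ | h)
    · exact h3 rfl
    · exact (L.conf_kind _ _ h).2.2 rfl⟩

theorem graph_adj (u v : V) : L.graph.Adj u v ↔ L.triEdge u v ∨ L.conf u v := Iff.rfl

open Classical in
/-- the weights of all pairs -/
noncomputable def wpair (u v : V) : ℝ :=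
  if L.triEdge u v then 4 else if L.conf u v ∨ L.linkEdge u v ∨ L.compEdge u v then 2 else 1

theorem triEdge_comm (u v : V) : L.triEdge u v ↔ L.triEdge v u := by
  unfold triEdge; constructor <;> rintro ⟨h1, h2, h3, h4⟩ <;> exact ⟨h2, h1, h3.symm, h4.symm⟩

theorem linkEdge_comm (u v : V) : L.linkEdge u v ↔ L.linkEdge v u := by
  unfold linkEdge
  constructor <;> rintro ⟨h1, h2⟩ <;> exact ⟨h1.symm, by tauto⟩

theorem compEdge_comm (u v : V) : L.compEdge u v ↔ L.compEdge v u := by
  unfold compEdge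
  constructor <;> rintro ⟨h1, h2, h3⟩ <;> exact ⟨h1.symm, h2.symm, by tauto⟩

theorem conf_comm (u v : V) : L.conf u v ↔ L.conf v u := ⟨L.conf_symm _ _, L.conf_symm _ _⟩

theorem wpair_comm (u v : V) : L.wpair u v = L.wpair v u := by
  unfold wpair
  rw [L.triEdge_comm u v, L.linkEdge_comm u v, L.compEdge_comm u v, L.conf_comm u v]

/-- the weight function on unordered pairs -/
noncomputable def wt : Sym2 V → ℝ := Sym2.lift ⟨L.wpair, L.wpair_comm⟩

theorem wt_mk (u v : V) : L.wt s(u, v) = L.wpair u v := rfl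

variable [Fintype V] [DecidableEq V]

section Soundness

variable {L} {H : SimpleGraph V} (hH : L.graph ≤ H) {M : Finset (Sym2 V)} {y : V → ℝ}
  (hM : IsMatching H M) (hy : IsCover H L.wt y)
  (h1 : ∀ e ∈ M, L.wt e = ends y e) (h2 : ∀ v, v ∉ covered M → y v = 0)

include hM h1 h2 in
/-- a vertex with positive `y` has a partner -/
theorem exists_partner (v : V) (hv : 0 < y v) : ∃ x, s(v, x) ∈ M ∧ x ≠ v ∧ L.wpair v x = y v + y x := by
  have : v ∈ covered M := by
    by_contra h
    rw [h2 v h] at hv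
    exact lt_irrefl _ hv
  rw [mem_covered] at this
  obtain ⟨e, he, hve⟩ := this
  obtain ⟨x, rfl⟩ := Sym2.mem_iff_exists.1 hve
  refine ⟨x, he, ?_, ?_⟩
  · have hadj : H.Adj v x := hM.1 _ he
    exact hadj.ne'
  · have := h1 _ he
    rw [ends_mk, L.wt_mk] at this
    exact this

include hM in
theorem partner_unique {v x x' : V} (hx : s(v, x) ∈ M) (hx' : s(v, x') ∈ M) : x = x' := by
  have := hM.2 _ hx _ hx' v (by simp) (by simp)
  exact Sym2.congr_right.1 this

include hH hM hy h1 h2 in
/-- the exposed corner of a group is matched with an occurrence of the group at `y = 0` -/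
theorem corner_matched (c : V) (hc : L.kind c = 0) :
    ∃ x, L.kind x = 3 ∧ L.grp x = L.grp c ∧ y x = 0 := by
  obtain ⟨d, hd, hdc⟩ := L.tri c 1 (by norm_num)
  obtain ⟨e, he, hec⟩ := L.tri c 2 (by norm_num)
  have tcd : L.triEdge c d := ⟨by omega, by omega, by omega, hdc.symm⟩
  have tce : L.triEdge c e := ⟨by omega, by omega, by omega, hec.symm⟩
  have tde : L.triEdge d e := ⟨by omega, by omega, by omega, by rw [hdc, hec]⟩
  have w4 : ∀ u v, L.triEdge u v → L.wpair u v = 4 := by
    intro u v h; unfold wpair; rw [if_pos h]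
  have ycd : 4 ≤ y c + y d := by
    have := hy.2 c d (hH (Or.inl tcd)); rwa [L.wt_mk, w4 _ _ tcd] at this
  have yce : 4 ≤ y c + y e := by
    have := hy.2 c e (hH (Or.inl tce)); rwa [L.wt_mk, w4 _ _ tce] at this
  have yde : 4 ≤ y d + y e := by
    have := hy.2 d e (hH (Or.inl tde)); rwa [L.wt_mk, w4 _ _ tde] at this
  -- partners of `d` and `e` outside of the triangle have weight one
  have outside : ∀ u, (L.kind u = 1 ∨ L.kind u = 2) → L.grp u = L.grp c →
      ∀ x, x ≠ u → s(u, x) ∈ M → x ≠ c → x ≠ d → x ≠ e → L.wpair u x = 1 := by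
    intro u hu hug x hxu _ hxc hxd hxe
    have nt : ¬ L.triEdge u x := by
      rintro ⟨g1, g2, g3, g4⟩
      have hpx := L.tri_pos x g2
      have hpc := L.tri_pos c (by omega)
      have hpd := L.tri_pos d (by omega)
      have hpe := L.tri_pos e (by omega)
      have hk : L.kind x = 0 ∨ L.kind x = 1 ∨ L.kind x = 2 := by omega
      rcases hk with hk | hk | hk
      · exact hxc (L.inj _ _ (by omega) (by omega) (by omega))
      · exact hxd (L.inj _ _ (by omega) (by omega) (by omega))
      · exact hxe (L.inj _ _ (by omega) (by omega) (by omega))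
    have nc : ¬ L.conf u x := fun h => by have := (L.conf_kind _ _ h).1; omega
    have nl : ¬ L.linkEdge u x := by
      rintro ⟨_, ⟨g, _⟩ | ⟨g, _⟩⟩ <;> omega
    have np : ¬ L.compEdge u x := by
      rintro ⟨_, _, ⟨g, _⟩ | ⟨g, _⟩⟩ <;> omega
    unfold wpair
    rw [if_neg nt, if_neg (by tauto)]
  have hdc' : d ≠ c := fun h => by rw [h] at hd; omega
  have hec' : e ≠ c := fun h => by rw [h] at he; omega
  have hde' : d ≠ e := fun h => by rw [h] at hd; omega
  -- the partner of `d` is `e`
  have hdeM : s(d, e) ∈ M := by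
    by_contra hno
    -- for `u = d` or `u = e`: either matched with `c` or `y u ≤ 1`
    have alt : ∀ u, (u = d ∨ u = e) → s(u, c) ∈ M ∨ y u ≤ 1 := by
      intro u hu
      by_cases hpos : 0 < y u
      · obtain ⟨x, hx, hxu, hwx⟩ := exists_partner hM h1 h2 u hpos
        by_cases hxc : x = c
        · left; rw [← hxc]; exact hx
        · right
          have hxd : x ≠ d := by
            rintro rfl
            rcases hu with rfl | rfl
            · exact hxu rfl
            · exact hno (by rw [Sym2.eq_swap]; exact hx)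
          have hxe : x ≠ e := by
            rintro rfl
            rcases hu with rfl | rfl
            · exact hno hx
            · exact hxu rfl
          have := outside u (by rcases hu with rfl | rfl <;> omega)
            (by rcases hu with rfl | rfl <;> assumption) x hxu hx hxc hxd hxe
          have hyx := hy.1 x
          linarith
      · right; linarith
    rcases alt d (Or.inl rfl) with hd1 | hd1 <;> rcases alt e (Or.inr rfl) with he1 | he1
    · have := partner_unique hM (v := c) (x := d) (x' := e) (by rw [Sym2.eq_swap]; exact hd1)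
        (by rw [Sym2.eq_swap]; exact he1)
      exact hde' this
    · have := h1 _ hd1
      rw [ends_mk, L.wt_mk, w4 _ _ ((L.triEdge_comm _ _).1 tcd)] at this
      linarith
    · have := h1 _ he1
      rw [ends_mk, L.wt_mk, w4 _ _ ((L.triEdge_comm _ _).1 tce)] at this
      linarith
    · linarith
  have hde4 := h1 _ hdeM
  rw [ends_mk, L.wt_mk, w4 _ _ tde] at hde4
  have hyc : 2 ≤ y c := by linarith
  obtain ⟨x, hx, hxc, hwx⟩ := exists_partner hM h1 h2 c (by linarith)
  have hxd : x ≠ d := by
    rintro rfl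
    have := partner_unique hM (v := x) (x := e) (x' := c) hdeM (by rw [Sym2.eq_swap]; exact hx)
    exact hec' this
  have hxe : x ≠ e := by
    rintro rfl
    have := partner_unique hM (v := x) (x := d) (x' := c) (by rw [Sym2.eq_swap]; exact hdeM)
      (by rw [Sym2.eq_swap]; exact hx)
    exact hdc' this
  have hyx := hy.1 x
  have nt : ¬ L.triEdge c x := by
    rintro ⟨g1, g2, g3, g4⟩
    have hpx := L.tri_pos x g2
    have hpd := L.tri_pos d (by omega)
    have hpe := L.tri_pos e (by omega)
    have hk : L.kind x = 1 ∨ L.kind x = 2 := by omega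
    rcases hk with hk | hk
    · exact hxd (L.inj _ _ (by omega) (by omega) (by omega))
    · exact hxe (L.inj _ _ (by omega) (by omega) (by omega))
  have nc : ¬ L.conf c x := fun h => by have := (L.conf_kind _ _ h).1; omega
  have np : ¬ L.compEdge c x := by
    rintro ⟨_, _, ⟨g, _⟩ | ⟨g, _⟩⟩ <;> omega
  by_cases hl : L.linkEdge c x
  · refine ⟨x, ?_, hl.1.symm, ?_⟩
    · rcases hl.2 with ⟨_, g⟩ | ⟨g, _⟩
      · exact g
      · omega
    · have : L.wpair c x = 2 := by
        unfold wpair; rw [if_neg nt, if_pos (by tauto)]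
      rw [this] at hwx
      linarith
  · exfalso
    have : L.wpair c x = 1 := by
      unfold wpair; rw [if_neg nt, if_neg (by tauto)]
    rw [this] at hwx
    linarith

end Soundness

/-- a choice of one occurrence in every group without conflicts -/
def Good (s : ℕ → V) : Prop :=
  (∀ v : V, L.kind (s (L.grp v)) = 3 ∧ L.grp (s (L.grp v)) = L.grp v) ∧
    ∀ u v : V, ¬ L.conf (s (L.grp u)) (s (L.grp v))

theorem sound {H : SimpleGraph V} (hH : L.graph ≤ H) (hS : Stable H L.wt) [Nonempty V] :
    ∃ s : ℕ → V, L.Good s := by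
  classical
  obtain ⟨M, y, hM, hy, hsum⟩ := (stable_iff H L.wt).1 hS
  obtain ⟨h1, h2⟩ := slack hM hy hsum
  have key : ∀ v : V, ∃ x, L.kind x = 3 ∧ L.grp x = L.grp v ∧ y x = 0 := by
    intro v
    obtain ⟨c, hc, hcv⟩ := L.tri v 0 (by norm_num)
    obtain ⟨x, hx1, hx2, hx3⟩ := corner_matched hH hM hy h1 h2 c hc
    exact ⟨x, hx1, hx2.trans hcv, hx3⟩
  have key2 : ∀ g : ℕ, ∃ x : V, (∃ v, L.grp v = g) → L.kind x = 3 ∧ L.grp x = g ∧ y x = 0 := by
    intro g
    by_cases h : ∃ v, L.grp v = g
    · obtain ⟨v, rfl⟩ := h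
      obtain ⟨x, hx⟩ := key v
      exact ⟨x, fun _ => hx⟩
    · exact ⟨Classical.arbitrary V, fun h' => absurd h' h⟩
  choose s hs using key2
  refine ⟨s, fun v => ⟨(hs _ ⟨v, rfl⟩).1, (hs _ ⟨v, rfl⟩).2.1⟩, fun u v hconf => ?_⟩
  have hu := (hs _ ⟨u, rfl⟩).2.2
  have hv := (hs _ ⟨v, rfl⟩).2.2
  have := hy.2 _ _ (hH (Or.inr hconf))
  have nt : ¬ L.triEdge (s (L.grp u)) (s (L.grp v)) := by
    rintro ⟨g, _⟩
    have := (L.conf_kind _ _ hconf).1
    omega
  rw [L.wt_mk] at this
  unfold wpair at this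
  rw [if_neg nt, if_pos (Or.inl hconf), hu, hv] at this
  linarith

section Completeness

variable {L} {s : ℕ → V} (hs : L.Good s)

/-- the selected occurrences -/
def sel (L : Layout V) (s : ℕ → V) (v : V) : Prop := v = s (L.grp v)

/-- the added edges -/
def added (L : Layout V) (s : ℕ → V) (u v : V) : Prop :=
  (L.linkEdge u v ∧ (L.kind u = 3 → sel L s u) ∧ (L.kind v = 3 → sel L s v)) ∨
    (L.compEdge u v ∧ (L.kind u = 3 → ¬ sel L s u) ∧ (L.kind v = 3 → ¬ sel L s v))

theorem added_symm {u v : V} (h : added L s u v) : added L s v u := by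
  rcases h with ⟨h1, h2, h3⟩ | ⟨h1, h2, h3⟩
  · exact Or.inl ⟨(L.linkEdge_comm _ _).1 h1, h3, h2⟩
  · exact Or.inr ⟨(L.compEdge_comm _ _).1 h1, h3, h2⟩

theorem added_ne {u v : V} (h : added L s u v) : u ≠ v := by
  rintro rfl
  rcases h with ⟨⟨_, h1⟩, _⟩ | ⟨⟨_, _, h1⟩, _⟩ <;> omega

/-- the stabilised graph -/
def newGraph (L : Layout V) (s : ℕ → V) : SimpleGraph V where
  Adj u v := L.graph.Adj u v ∨ added L s u v
  symm := ⟨by
    rintro u v (h | h)
    · exact Or.inl h.symm
    · exact Or.inr (added_symm h)⟩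
  loopless := ⟨by
    rintro u (h | h)
    · exact h.ne rfl
    · exact added_ne h rfl⟩

/-- the matching edges -/
def mEdge (L : Layout V) (s : ℕ → V) (u v : V) : Prop :=
  (L.triEdge u v ∧ L.kind u ≠ 0 ∧ L.kind v ≠ 0) ∨ added L s u v

theorem mEdge_symm {u v : V} (h : mEdge L s u v) : mEdge L s v u := by
  rcases h with ⟨h1, h2, h3⟩ | h
  · exact Or.inl ⟨(L.triEdge_comm _ _).1 h1, h3, h2⟩
  · exact Or.inr (added_symm h)

open Classical in
/-- the matching -/
noncomputable def mat (L : Layout V) (s : ℕ → V) : Finset (Sym2 V) :=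
  univ.filter (fun e => ∃ u v, e = s(u, v) ∧ mEdge L s u v)

theorem mem_mat {u v : V} : s(u, v) ∈ mat L s ↔ mEdge L s u v := by
  simp only [mat, mem_filter]
  constructor
  · rintro ⟨_, u', v', h, h'⟩
    rcases Sym2.eq_iff.1 h with ⟨rfl, rfl⟩ | ⟨rfl, rfl⟩
    · exact h'
    · exact mEdge_symm h'
  · intro h
    exact ⟨mem_univ _, u, v, rfl, h⟩

include hs in
theorem mEdge_unique {v x x' : V} (hx : mEdge L s v x) (hx' : mEdge L s v x') : x = x' := by
  -- descriptors of the partner
  have hsel_pos : ∀ a b, L.kind a = 3 → L.kind b = 3 → L.grp a = L.grp b → sel L s a → sel L s b →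
      a = b := by
    intro a b _ _ hg ha hb
    unfold sel at ha hb
    rw [ha, hb, hg]
  rcases hx with ⟨⟨a1, a2, a3, a4⟩, a5, a6⟩ | ⟨⟨a1, a2⟩, a3, a4⟩ | ⟨⟨a1, a2, a3⟩, a4, a5⟩ <;>
  rcases hx' with ⟨⟨b1, b2, b3, b4⟩, b5, b6⟩ | ⟨⟨b1, b2⟩, b3, b4⟩ | ⟨⟨b1, b2, b3⟩, b4, b5⟩
  · have := L.tri_pos x a2
    have := L.tri_pos x' b2
    exact L.inj _ _ (by omega) (by omega) (by omega)
  · exfalso; omega
  · exfalso; omega
  · exfalso; omega
  · rcases a2 with ⟨c1, c2⟩ | ⟨c1, c2⟩ <;> rcases b2 with ⟨d1, d2⟩ | ⟨d1, d2⟩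
    · exact hsel_pos x x' c2 d2 (by omega) (a4 c2) (b4 d2)
    · omega
    · omega
    · have := L.tri_pos x (by omega)
      have := L.tri_pos x' (by omega)
      exact L.inj _ _ (by omega) (by omega) (by omega)
  · exfalso
    rcases a2 with ⟨c1, c2⟩ | ⟨c1, c2⟩ <;> rcases b3 with ⟨d1, d2⟩ | ⟨d1, d2⟩
    · omega
    · omega
    · exact b4 d1 (a3 c1)
    · omega
  · exfalso; omega
  · exfalso
    rcases a3 with ⟨c1, c2⟩ | ⟨c1, c2⟩ <;> rcases b2 with ⟨d1, d2⟩ | ⟨d1, d2⟩
    · omega
    · exact a4 c1 (b3 d1)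
    · omega
    · omega
  · exact L.inj _ _ (by omega) (by omega) (by omega)

include hs in
theorem mat_isMatching : IsMatching (newGraph L s) (mat L s) := by
  constructor
  · intro e he
    induction e with
    | _ u v =>
      rw [mem_mat] at he
      rcases he with ⟨h, _⟩ | h
      · exact Or.inl (Or.inl h)
      · exact Or.inr h
  · intro e he f hf v hve hvf
    obtain ⟨x, rfl⟩ := Sym2.mem_iff_exists.1 hve
    obtain ⟨x', rfl⟩ := Sym2.mem_iff_exists.1 hvf
    rw [mem_mat] at he hf
    rw [mEdge_unique hs he hf]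

open Classical in
/-- the cover -/
noncomputable def cov (L : Layout V) (s : ℕ → V) (v : V) : ℝ :=
  if L.kind v = 4 ∨ (L.kind v = 3 ∧ sel L s v) then 0 else 2

theorem cov_nonneg (v : V) : 0 ≤ cov L s v := by
  unfold cov; split_ifs <;> norm_num

theorem wpair_of_added {u v : V} (h : added L s u v) : L.wpair u v = 2 := by
  have nt : ¬ L.triEdge u v := by
    rintro ⟨g1, g2, _, _⟩
    rcases h with ⟨⟨_, h1⟩, _⟩ | ⟨⟨_, _, h1⟩, _⟩ <;> omega
  have : L.linkEdge u v ∨ L.compEdge u v := by
    rcases h with ⟨h1, _⟩ | ⟨h1, _⟩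
    · exact Or.inl h1
    · exact Or.inr h1
  unfold wpair
  rw [if_neg nt, if_pos (by tauto)]

theorem cov_of_added {u v : V} (h : added L s u v) : cov L s u + cov L s v = 2 := by
  unfold cov
  rcases h with ⟨⟨_, h1⟩, h2, h3⟩ | ⟨⟨_, _, h1⟩, h2, h3⟩
  · rcases h1 with ⟨g1, g2⟩ | ⟨g1, g2⟩
    · rw [if_neg (by omega), if_pos (Or.inr ⟨g2, h3 g2⟩)]; norm_num
    · rw [if_pos (Or.inr ⟨g1, h2 g1⟩), if_neg (by omega)]; norm_num
  · rcases h1 with ⟨g1, g2⟩ | ⟨g1, g2⟩
    · have := h2 g1
      rw [if_neg (by rintro (h | h); · omega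
                     · exact this h.2), if_pos (Or.inl g2)]; norm_num
    · have := h3 g2
      rw [if_pos (Or.inl g1), if_neg (by rintro (h | h); · omega
                                         · exact this h.2)]; norm_num

theorem cov_tri {v : V} (h : L.kind v < 3) : cov L s v = 2 := by
  unfold cov
  rw [if_neg (by omega)]

include hs in
theorem cov_isCover : IsCover (newGraph L s) L.wt (cov L s) := by
  refine ⟨cov_nonneg, ?_⟩
  intro u v h
  rw [L.wt_mk]
  rcases h with (h | h) | h
  · have : L.wpair u v = 4 := by unfold wpair; rw [if_pos h]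
    rw [this, cov_tri h.1, cov_tri h.2.1]; norm_num
  · obtain ⟨k1, k2, _⟩ := L.conf_kind _ _ h
    have nt : ¬ L.triEdge u v := by rintro ⟨g, _⟩; omega
    have : L.wpair u v = 2 := by unfold wpair; rw [if_neg nt, if_pos (Or.inl h)]
    rw [this]
    have hnot : ¬ (sel L s u ∧ sel L s v) := by
      rintro ⟨h1, h2⟩
      apply hs.2 u v
      unfold sel at h1 h2
      rw [← h1, ← h2]; exact h
    have hnn := cov_nonneg (L := L) (s := s)
    by_cases h1 : sel L s u
    · have h2 : ¬ sel L s v := fun h2 => hnot ⟨h1, h2⟩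
      have : cov L s v = 2 := by
        unfold cov; rw [if_neg (by rintro (h | h); · omega
                                   · exact h2 h.2)]
      have := hnn u
      linarith
    · have : cov L s u = 2 := by
        unfold cov; rw [if_neg (by rintro (h | h); · omega
                                   · exact h1 h.2)]
      have := hnn v
      linarith
  · rw [wpair_of_added h, cov_of_added h]

include hs in
theorem complete : Stable (newGraph L s) L.wt := by
  rw [stable_iff]
  refine ⟨mat L s, cov L s, mat_isMatching hs, cov_isCover hs, ?_⟩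
  apply sum_eq_of_slack (mat_isMatching hs)
  · intro e he
    induction e with
    | _ u v =>
      rw [mem_mat] at he
      rw [ends_mk, L.wt_mk]
      rcases he with ⟨h, _⟩ | h
      · have : L.wpair u v = 4 := by unfold wpair; rw [if_pos h]
        rw [this, cov_tri h.1, cov_tri h.2.1]; norm_num
      · rw [wpair_of_added h, cov_of_added h]
  · intro v hv
    have hnc : ∀ x, ¬ mEdge L s v x := by
      intro x hx
      apply hv
      rw [mem_covered]
      exact ⟨s(v, x), mem_mat.2 hx, by simp⟩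
    have hk := L.kind_lt v
    by_contra hne
    have hkey : L.kind v ≠ 4 ∧ ¬ (L.kind v = 3 ∧ sel L s v) := by
      unfold cov at hne
      by_contra hcon
      apply hne
      rw [if_pos (by tauto)]
    by_cases k0 : L.kind v = 0
    · apply hnc (s (L.grp v))
      right; left
      have := hs.1 v
      refine ⟨⟨this.2.symm, Or.inl ⟨k0, this.1⟩⟩, fun h => by omega, fun _ => ?_⟩
      unfold sel
      rw [this.2]
    · by_cases k1 : L.kind v = 1
      · obtain ⟨e, he, hev⟩ := L.tri v 2 (by norm_num)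
        apply hnc e
        left
        exact ⟨⟨by omega, by omega, by omega, hev.symm⟩, by omega, by omega⟩
      · by_cases k2 : L.kind v = 2
        · obtain ⟨e, he, hev⟩ := L.tri v 1 (by norm_num)
          apply hnc e
          left
          exact ⟨⟨by omega, by omega, by omega, hev.symm⟩, by omega, by omega⟩
        · have k3 : L.kind v = 3 := by omega
          obtain ⟨p, hp, hpv, hpp⟩ := L.comp v k3
          apply hnc p
          right; right
          exact ⟨⟨hpv.symm, hpp.symm, Or.inl ⟨k3, hp⟩⟩, fun _ h => hkey.2 ⟨k3, h⟩, fun h => by omega⟩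

end Completeness

/-- the combinatorial equivalence -/
theorem stabilizable_iff [Nonempty V] :
    (∃ H : SimpleGraph V, L.graph ≤ H ∧ Stable H L.wt) ↔ ∃ s : ℕ → V, L.Good s := by
  constructor
  · rintro ⟨H, hH, hS⟩
    exact L.sound hH hS
  · rintro ⟨s, hs⟩
    exact ⟨newGraph L s, fun u v h => Or.inl h, complete hs⟩

end Layout

end Pool.Agent.H586R2.EA
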