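import Mathlib
import Pool.Agent.H586R2.EA.Defs

set_option autoImplicit false

/-!
Instances of weighted min-EDGE-ADD.
-/

namespace Pool.Agent.H586R2.EA

/-- An instance of weighted min-EDGE-ADD on the vertices `0, …, n-1`, given by an `n × n` matrix.
The entry `(b, x)` in row `u` and column `v` says whether `uv` is an edge of the graph (`b = true`)
or a non-edge (`b = false`); in the first case `x = w(uv)`, in the second case `x = w'(uv)`. -/
abbrev Inst : Type := List (List (Bool × ℚ))

namespace Inst

/-- The entry of the matrix in row `u` and column `v`. -/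
def entry (I : Inst) (u v : ℕ) : Bool × ℚ := (I.getD u []).getD v (false, 0)

/-- The matrix is square and symmetric and the weights are nonnegative. -/
def Valid (I : Inst) : Prop :=
  (∀ row ∈ I, row.length = I.length) ∧
    (∀ u < I.length, ∀ v < I.length, I.entry u v = I.entry v u) ∧
    (∀ u < I.length, ∀ v < I.length, 0 ≤ (I.entry u v).2)

/-- All weights (of edges and of non-edges) are in the set `W`. -/
def WeightsIn (I : Inst) (W : Set ℚ) : Prop :=
  ∀ u < I.length, ∀ v < I.length, (I.entry u v).2 ∈ W

/-- The graph `G = (V, E)` of the instance. -/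
def graph (I : Inst) : SimpleGraph (Fin I.length) :=
  SimpleGraph.fromRel (fun u v => (I.entry u v).1 = true)

/-- The weights: `w` on the edges and `w'` on the non-edges. -/
noncomputable def weight (I : Inst) (e : Sym2 (Fin I.length)) : ℝ :=
  ((I.entry (e.inf : Fin I.length) (e.sup : Fin I.length)).2 : ℝ)

/-- Some set `F` of non-edges can be added so that the weighted graph becomes stable; the graph
`H` is `(V, E ∪ F)`. -/
def Stabilizable (I : Inst) : Prop :=
  ∃ H : SimpleGraph (Fin I.length), I.graph ≤ H ∧ Stable H I.weight

/-- Some set `F` of at most `k` non-edges can be added so that the weighted graph becomes stable: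
the optimum of weighted min-EDGE-ADD is at most `k`. -/
def StabilizableBy (I : Inst) (k : ℕ) : Prop :=
  ∃ H : SimpleGraph (Fin I.length), I.graph ≤ H ∧ (H.edgeSet \ I.graph.edgeSet).ncard ≤ k ∧
    Stable H I.weight

end Inst

end Pool.Agent.H586R2.EA
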