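import Mathlib
import Pool.Agent.H586R2.EA.Core
import Pool.Agent.H586R2.EA.Inst

set_option autoImplicit false
set_option linter.unusedSectionVars false

namespace Pool.Agent.H586R2.EA

/-- CNF formulas: a literal `(b, x)` is satisfied by `τ` iff `τ x = b`. -/
abbrev Cnf : Type := List (List (Bool × ℕ))

/-- satisfiability -/
def IsSat (φ : Cnf) : Prop := ∃ τ : ℕ → Bool, ∀ c ∈ φ, ∃ l ∈ c, τ l.2 = l.1

/-- vertex descriptors: kind, clause, position, literal -/
abbrev Desc : Type := ℕ × ℕ × ℕ × (Bool × ℕ)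

/-- descriptors of one clause -/
def descC (c : List (Bool × ℕ)) (j : ℕ) : List Desc :=
  [(0, j, 0, (false, 0)), (1, j, 0, (false, 0)), (2, j, 0, (false, 0))] ++
    c.zipIdx.flatMap (fun l => [(3, j, l.2, l.1), (4, j, l.2, l.1)])

/-- all descriptors -/
def descs (φ : Cnf) : List Desc := φ.zipIdx.flatMap (fun c => descC c.1 c.2)

theorem mem_zipIdx {α : Type} {l : List α} {a : α} {i : ℕ} :
    (a, i) ∈ l.zipIdx ↔ l[i]? = some a := by
  rw [List.mem_zipIdx_iff_getElem?]

theorem mem_descs {φ : Cnf} {a : Desc} : a ∈ descs φ ↔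
    ∃ c, φ[a.2.1]? = some c ∧
      ((a.1 < 3 ∧ a.2.2.1 = 0 ∧ a.2.2.2 = (false, 0)) ∨
        ((a.1 = 3 ∨ a.1 = 4) ∧ getElem? c a.2.2.1 = some a.2.2.2)) := by
  obtain ⟨k, j, i, l⟩ := a
  unfold descs
  simp only [List.mem_flatMap, descC, List.mem_append, List.mem_cons, List.not_mem_nil, or_false,
    Prod.mk.injEq, Prod.exists, mem_zipIdx]
  constructor
  · rintro ⟨c, j', hc, h⟩
    rcases h with (⟨rfl, rfl, rfl, rfl⟩ | ⟨rfl, rfl, rfl, rfl⟩ | ⟨rfl, rfl, rfl, rfl⟩) | h
    · exact ⟨c, hc, Or.inl ⟨by norm_num, rfl, rfl⟩⟩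
    · exact ⟨c, hc, Or.inl ⟨by norm_num, rfl, rfl⟩⟩
    · exact ⟨c, hc, Or.inl ⟨by norm_num, rfl, rfl⟩⟩
    · obtain ⟨b, x, i', hi, h | h⟩ := h
      · obtain ⟨rfl, rfl, rfl, rfl⟩ := h
        exact ⟨c, hc, Or.inr ⟨Or.inl rfl, hi⟩⟩
      · obtain ⟨rfl, rfl, rfl, rfl⟩ := h
        exact ⟨c, hc, Or.inr ⟨Or.inr rfl, hi⟩⟩
  · rintro ⟨c, hc, ⟨hk, rfl, rfl⟩ | ⟨hk, hi⟩⟩
    · refine ⟨c, j, hc, Or.inl ?_⟩
      simp only [and_true, true_and]
      omega
    · refine ⟨c, j, hc, Or.inr ⟨l.1, l.2, i, hi, ?_⟩⟩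
      rcases hk with rfl | rfl
      · left; exact ⟨rfl, rfl, rfl, rfl⟩
      · right; exact ⟨rfl, rfl, rfl, rfl⟩

theorem pairwise_zipIdx {α : Type} (l : List α) : l.zipIdx.Pairwise (fun a b => a.2 ≠ b.2) := by
  have h : (l.zipIdx.map Prod.snd).Nodup := by
    rw [List.zipIdx_map_snd]
    exact List.nodup_range'
  rwa [List.Nodup, List.pairwise_map] at h

theorem nodup_descs (φ : Cnf) : (descs φ).Nodup := by
  unfold descs
  rw [List.nodup_flatMap]
  constructor
  · rintro ⟨c, j⟩ _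
    simp only [descC]
    rw [List.nodup_append]
    refine ⟨by simp, ?_, ?_⟩
    · rw [List.nodup_flatMap]
      constructor
      · rintro ⟨l, i⟩ _
        simp
      · refine (pairwise_zipIdx c).imp ?_
        rintro ⟨l, i⟩ ⟨l', i'⟩ hne
        simp only [Function.onFun, List.Disjoint]
        intro a ha hb
        simp only [List.mem_cons, List.not_mem_nil, or_false] at ha hb
        rcases ha with rfl | rfl <;> rcases hb with hb | hb <;> simp_all
    · intro a ha b hb
      rintro rfl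
      rw [List.mem_flatMap] at hb
      obtain ⟨⟨l, i⟩, _, hb⟩ := hb
      simp only [List.mem_cons, List.not_mem_nil, or_false] at ha hb
      rcases ha with rfl | rfl | rfl <;> rcases hb with hb | hb <;> simp at hb
  · refine (pairwise_zipIdx φ).imp ?_
    rintro ⟨c, j⟩ ⟨c', j'⟩ hne
    simp only [Function.onFun, List.Disjoint]
    intro a ha hb
    have key : ∀ (c : List (Bool × ℕ)) (j : ℕ), a ∈ descC c j → a.2.1 = j := by
      intro c j h
      simp only [descC, List.mem_append, List.mem_cons, List.not_mem_nil, or_false,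
        List.mem_flatMap] at h
      rcases h with (rfl | rfl | rfl) | ⟨x, _, rfl | rfl⟩ <;> rfl
    exact hne ((key _ _ ha).symm.trans (key _ _ hb))

/-- two corners of the triangle of one clause -/
def dTri (a b : Desc) : Prop := a.1 < 3 ∧ b.1 < 3 ∧ a.1 ≠ b.1 ∧ a.2.1 = b.2.1
/-- contradictory literal occurrences -/
def dConf (a b : Desc) : Prop :=
  a.1 = 3 ∧ b.1 = 3 ∧ a.2.2.2.2 = b.2.2.2.2 ∧ a.2.2.2.1 ≠ b.2.2.2.1
/-- exposed corner and occurrence of the same clause -/
def dLink (a b : Desc) : Prop := a.2.1 = b.2.1 ∧ ((a.1 = 0 ∧ b.1 = 3) ∨ (a.1 = 3 ∧ b.1 = 0))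
/-- occurrence and its companion -/
def dComp (a b : Desc) : Prop :=
  a.2.1 = b.2.1 ∧ a.2.2.1 = b.2.2.1 ∧ ((a.1 = 3 ∧ b.1 = 4) ∨ (a.1 = 4 ∧ b.1 = 3))

instance (a b : Desc) : Decidable (dTri a b) := by unfold dTri; infer_instance
instance (a b : Desc) : Decidable (dConf a b) := by unfold dConf; infer_instance
instance (a b : Desc) : Decidable (dLink a b) := by unfold dLink; infer_instance
instance (a b : Desc) : Decidable (dComp a b) := by unfold dComp; infer_instance

/-- matrix entries -/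
def ent (a b : Desc) : Bool × ℚ :=
  if dTri a b then (true, 4) else if dConf a b then (true, 2)
    else if dLink a b ∨ dComp a b then (false, 2) else (false, 1)

/-- the reduction -/
def red (φ : Cnf) : Inst := (descs φ).map (fun a => (descs φ).map (fun b => ent a b))

theorem length_red (φ : Cnf) : (red φ).length = (descs φ).length := by simp [red]

theorem entry_red (φ : Cnf) (u v : ℕ) (hu : u < (descs φ).length) (hv : v < (descs φ).length) :
    (red φ).entry u v = ent (descs φ)[u] (descs φ)[v] := by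
  unfold Inst.entry red
  simp [List.getD, hu, hv]

theorem dTri_comm (a b : Desc) : dTri a b ↔ dTri b a := by
  unfold dTri; constructor <;> rintro ⟨h1, h2, h3, h4⟩ <;> exact ⟨h2, h1, h3.symm, h4.symm⟩
theorem dConf_comm (a b : Desc) : dConf a b ↔ dConf b a := by
  unfold dConf; constructor <;> rintro ⟨h1, h2, h3, h4⟩ <;> exact ⟨h2, h1, h3.symm, h4.symm⟩
theorem dLink_comm (a b : Desc) : dLink a b ↔ dLink b a := by
  unfold dLink; constructor <;> rintro ⟨h1, h2⟩ <;> exact ⟨h1.symm, by tauto⟩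
theorem dComp_comm (a b : Desc) : dComp a b ↔ dComp b a := by
  unfold dComp; constructor <;> rintro ⟨h1, h2, h3⟩ <;> exact ⟨h1.symm, h2.symm, by tauto⟩

theorem ent_comm (a b : Desc) : ent a b = ent b a := by
  unfold ent
  simp only [dTri_comm a b, dConf_comm a b, dLink_comm a b, dComp_comm a b]

theorem ent_vals (a b : Desc) : (ent a b).2 ∈ ({1, 2, 4} : Set ℚ) := by
  unfold ent
  split_ifs <;> simp

theorem red_weights (φ : Cnf) : (red φ).WeightsIn {1, 2, 4} := by
  intro u hu v hv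
  rw [length_red] at hu hv
  rw [entry_red φ u v hu hv]
  exact ent_vals _ _

theorem red_valid (φ : Cnf) : (red φ).Valid := by
  refine ⟨?_, ?_, ?_⟩
  · intro row hrow
    unfold red at hrow
    rw [List.mem_map] at hrow
    obtain ⟨a, _, rfl⟩ := hrow
    rw [length_red, List.length_map]
  · intro u hu v hv
    rw [length_red] at hu hv
    rw [entry_red φ u v hu hv, entry_red φ v u hv hu, ent_comm]
  · intro u hu v hv
    have := red_weights φ u hu v hv
    rcases this with h | h | h <;> rw [h] <;> norm_num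

section Lay

variable (φ : Cnf)

/-- descriptor of a vertex -/
def dsc (v : Fin (red φ).length) : Desc := (descs φ)[(v : ℕ)]'(length_red φ ▸ v.2)

theorem dsc_mem (v : Fin (red φ).length) : dsc φ v ∈ descs φ := List.getElem_mem _

theorem dsc_inj {u v : Fin (red φ).length} (h : dsc φ u = dsc φ v) : u = v := by
  unfold dsc at h
  have := (List.Nodup.getElem_inj_iff (nodup_descs φ)).1 h
  exact Fin.ext this

theorem exists_dsc {a : Desc} (h : a ∈ descs φ) : ∃ v, dsc φ v = a := by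
  obtain ⟨i, hi, h⟩ := List.getElem_of_mem h
  exact ⟨⟨i, by rw [length_red]; exact hi⟩, h⟩

theorem entry_eq (u v : Fin (red φ).length) :
    (red φ).entry (u : ℕ) (v : ℕ) = ent (dsc φ u) (dsc φ v) := by
  exact entry_red φ u v (length_red φ ▸ u.2) (length_red φ ▸ v.2)

theorem dsc_kind_lt (v : Fin (red φ).length) : (dsc φ v).1 < 5 := by
  obtain ⟨c, hc, h⟩ := mem_descs.1 (dsc_mem φ v)
  omega

/-- the layout of the reduction -/
def lay : Layout (Fin (red φ).length) where
  kind v := (dsc φ v).1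
  grp v := (dsc φ v).2.1
  pos v := (dsc φ v).2.2.1
  conf u v := dConf (dsc φ u) (dsc φ v)
  kind_lt := dsc_kind_lt φ
  inj := by
    intro u v h1 h2 h3
    apply dsc_inj φ
    obtain ⟨c, hc, h⟩ := mem_descs.1 (dsc_mem φ u)
    obtain ⟨c', hc', h'⟩ := mem_descs.1 (dsc_mem φ v)
    rw [h2] at hc
    have hcc : c = c' := by rw [hc] at hc'; exact Option.some.inj hc'
    subst hcc
    rcases h with ⟨g1, g2, g3⟩ | ⟨g1, g2⟩ <;> rcases h' with ⟨g1', g2', g3'⟩ | ⟨g1', g2'⟩
    · ext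
      · exact h1
      · exact h2
      · exact h3
      · rw [g3, g3']
      · rw [g3, g3']
    · exfalso; omega
    · exfalso; omega
    · rw [h3, g2'] at g2
      have := Option.some.inj g2
      exact Prod.ext h1 (Prod.ext h2 (Prod.ext h3 this.symm))
  tri := by
    intro v t ht
    obtain ⟨c, hc, h⟩ := mem_descs.1 (dsc_mem φ v)
    obtain ⟨u, hu⟩ := exists_dsc φ (a := (t, (dsc φ v).2.1, 0, (false, 0)))
      (mem_descs.2 ⟨c, hc, Or.inl ⟨ht, rfl, rfl⟩⟩)
    exact ⟨u, by rw [hu], by rw [hu]⟩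
  tri_pos := by
    intro v hv
    obtain ⟨c, hc, h⟩ := mem_descs.1 (dsc_mem φ v)
    rcases h with ⟨g1, g2, g3⟩ | ⟨g1, g2⟩
    · exact g2
    · omega
  comp := by
    intro v hv
    obtain ⟨c, hc, h⟩ := mem_descs.1 (dsc_mem φ v)
    rcases h with ⟨g1, g2, g3⟩ | ⟨g1, g2⟩
    · omega
    · obtain ⟨u, hu⟩ := exists_dsc φ (a := (4, (dsc φ v).2))
        (mem_descs.2 ⟨c, hc, Or.inr ⟨Or.inr rfl, g2⟩⟩)
      exact ⟨u, by rw [hu], by rw [hu], by rw [hu]⟩
  comp' := by
    intro v hv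
    obtain ⟨c, hc, h⟩ := mem_descs.1 (dsc_mem φ v)
    rcases h with ⟨g1, g2, g3⟩ | ⟨g1, g2⟩
    · omega
    · obtain ⟨u, hu⟩ := exists_dsc φ (a := (3, (dsc φ v).2))
        (mem_descs.2 ⟨c, hc, Or.inr ⟨Or.inl rfl, g2⟩⟩)
      exact ⟨u, by rw [hu], by rw [hu], by rw [hu]⟩
  conf_symm := fun u v h => (dConf_comm _ _).1 h
  conf_kind := by
    rintro u v ⟨h1, h2, h3, h4⟩
    exact ⟨h1, h2, fun h => h4 (by rw [h])⟩

theorem graph_eq : (red φ).graph = (lay φ).graph := by
  ext u v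
  unfold Inst.graph
  rw [SimpleGraph.fromRel_adj, Layout.graph_adj]
  simp only [entry_eq, ent_comm (dsc φ v) (dsc φ u), or_self]
  have h1 : (lay φ).triEdge u v ↔ dTri (dsc φ u) (dsc φ v) := Iff.rfl
  have h2 : (lay φ).conf u v ↔ dConf (dsc φ u) (dsc φ v) := Iff.rfl
  rw [h1, h2]
  constructor
  · rintro ⟨_, h⟩
    unfold ent at h
    by_contra hcon
    push Not at hcon
    rw [if_neg hcon.1, if_neg hcon.2] at h
    split_ifs at h
  · intro h
    refine ⟨?_, ?_⟩
    · rintro rfl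
      rcases h with ⟨_, _, h, _⟩ | ⟨_, _, _, h⟩ <;> exact h rfl
    · unfold ent
      by_cases h' : dTri (dsc φ u) (dsc φ v)
      · rw [if_pos h']
      · rw [if_neg h', if_pos (h.resolve_left h')]

theorem weight_eq : (red φ).weight = (lay φ).wt := by
  funext e
  induction e with
  | _ u v =>
    rw [Layout.wt_mk]
    unfold Inst.weight
    rw [entry_eq]
    have : ent (dsc φ (s(u, v)).inf) (dsc φ (s(u, v)).sup) = ent (dsc φ u) (dsc φ v) := by
      rw [Sym2.inf_mk, Sym2.sup_mk]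
      rcases le_total u v with h | h
      · rw [inf_of_le_left h, sup_of_le_right h]
      · rw [inf_of_le_right h, sup_of_le_left h, ent_comm]
    rw [this]
    unfold ent Layout.wpair
    have h1 : (lay φ).triEdge u v ↔ dTri (dsc φ u) (dsc φ v) := Iff.rfl
    have h2 : (lay φ).conf u v ↔ dConf (dsc φ u) (dsc φ v) := Iff.rfl
    have h3 : (lay φ).linkEdge u v ↔ dLink (dsc φ u) (dsc φ v) := Iff.rfl
    have h4 : (lay φ).compEdge u v ↔ dComp (dsc φ u) (dsc φ v) := Iff.rfl
    by_cases g1 : dTri (dsc φ u) (dsc φ v)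
    · rw [if_pos g1, if_pos (h1.2 g1)]; norm_num
    · rw [if_neg g1, if_neg (fun h => g1 (h1.1 h))]
      by_cases g2 : dConf (dsc φ u) (dsc φ v)
      · rw [if_pos g2, if_pos (Or.inl (h2.2 g2))]; norm_num
      · rw [if_neg g2]
        by_cases g3 : dLink (dsc φ u) (dsc φ v) ∨ dComp (dsc φ u) (dsc φ v)
        · rw [if_pos g3, if_pos (by rw [h2, h3, h4]; exact Or.inr g3)]; norm_num
        · rw [if_neg g3, if_neg (by rw [h2, h3, h4]; tauto)]; norm_num

theorem good_of_sat (h : IsSat φ) [Nonempty (Fin (red φ).length)] : ∃ s, (lay φ).Good s := by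
  obtain ⟨τ, hτ⟩ := h
  have key : ∀ j : ℕ, ∃ v : Fin (red φ).length, ∀ c, φ[j]? = some c →
      (dsc φ v).1 = 3 ∧ (dsc φ v).2.1 = j ∧ τ (dsc φ v).2.2.2.2 = (dsc φ v).2.2.2.1 := by
    intro j
    cases hc : φ[j]? with
    | none => exact ⟨Classical.arbitrary _, fun c h => by simp at h⟩
    | some c =>
      obtain ⟨l, hl, hl2⟩ := hτ c (List.mem_of_getElem? hc)
      obtain ⟨i, hi⟩ := List.mem_iff_getElem?.1 hl
      obtain ⟨v, hv⟩ := exists_dsc φ (a := (3, j, i, l)) (mem_descs.2 ⟨c, hc, Or.inr ⟨Or.inl rfl, hi⟩⟩)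
      exact ⟨v, fun _ _ => by rw [hv]; exact ⟨rfl, rfl, hl2⟩⟩
  choose s hs using key
  refine ⟨s, fun v => ?_, fun u v hconf => ?_⟩
  · obtain ⟨c, hc, _⟩ := mem_descs.1 (dsc_mem φ v)
    exact ⟨(hs _ c hc).1, (hs _ c hc).2.1⟩
  · obtain ⟨c, hc, _⟩ := mem_descs.1 (dsc_mem φ u)
    obtain ⟨c', hc', _⟩ := mem_descs.1 (dsc_mem φ v)
    have h1 := (hs _ c hc).2.2
    have h2 := (hs _ c' hc').2.2
    obtain ⟨_, _, h3, h4⟩ := hconf
    apply h4
    change (dsc φ (s ((lay φ).grp u))).2.2.2.2 = (dsc φ (s ((lay φ).grp v))).2.2.2.2 at h3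
    change τ (dsc φ (s ((lay φ).grp u))).2.2.2.2 = (dsc φ (s ((lay φ).grp u))).2.2.2.1 at h1
    change τ (dsc φ (s ((lay φ).grp v))).2.2.2.2 = (dsc φ (s ((lay φ).grp v))).2.2.2.1 at h2
    rw [← h1, ← h2, h3]

theorem sat_of_good {s : ℕ → Fin (red φ).length} (hs : (lay φ).Good s) : IsSat φ := by
  classical
  -- for every clause index, the selected literal
  have key : ∀ j c, φ[j]? = some c → (dsc φ (s j)).1 = 3 ∧ (dsc φ (s j)).2.2.2 ∈ c ∧
      ∃ v, (lay φ).grp v = j := by
    intro j c hc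
    obtain ⟨v, hv⟩ := exists_dsc φ (a := (0, j, 0, (false, 0)))
      (mem_descs.2 ⟨c, hc, Or.inl ⟨by norm_num, rfl, rfl⟩⟩)
    have hg : (lay φ).grp v = j := by
      change (dsc φ v).2.1 = j
      rw [hv]
    have h1 := hs.1 v
    rw [hg] at h1
    refine ⟨h1.1, ?_, v, hg⟩
    obtain ⟨c', hc', h⟩ := mem_descs.1 (dsc_mem φ (s j))
    have h2 : (dsc φ (s j)).2.1 = j := h1.2
    rw [h2, hc] at hc'
    obtain rfl := Option.some.inj hc'
    have h3 : (dsc φ (s j)).1 = 3 := h1.1
    rcases h with ⟨g1, _⟩ | ⟨_, g2⟩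
    · omega
    · exact List.mem_of_getElem? g2
  refine ⟨fun x => decide (∃ j c, φ[j]? = some c ∧ (dsc φ (s j)).2.2.2 = (true, x)), ?_⟩
  intro c hc
  obtain ⟨j, hj⟩ := List.mem_iff_getElem?.1 hc
  obtain ⟨h1, h2, v, hv⟩ := key j c hj
  refine ⟨_, h2, ?_⟩
  cases hb : (dsc φ (s j)).2.2.2.1 with
  | true =>
    rw [decide_eq_true_iff]
    exact ⟨j, c, hj, Prod.ext hb rfl⟩
  | false =>
    rw [decide_eq_false_iff_not]
    rintro ⟨j', c', hj', h'⟩
    obtain ⟨h1', h2', v', hv'⟩ := key j' c' hj'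
    have := hs.2 v v'
    rw [hv, hv'] at this
    apply this
    refine ⟨h1, h1', ?_, ?_⟩
    · rw [h']
    · rw [h', hb]; simp

theorem red_correct : IsSat φ ↔ (red φ).Stabilizable := by
  unfold Inst.Stabilizable
  rcases Nat.eq_zero_or_pos (red φ).length with h0 | hpos
  · -- no vertices
    have hφ : φ = [] := by
      cases φ with
      | nil => rfl
      | cons c φ =>
        rw [length_red] at h0
        simp [descs, descC] at h0
    constructor
    · intro _
      have : IsEmpty (Fin (red φ).length) := by rw [h0]; infer_instance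
      refine ⟨(red φ).graph, le_refl _, ?_⟩
      rw [stable_iff]
      exact ⟨∅, fun _ => 0, isMatching_empty _, ⟨fun v => le_refl _, fun v => isEmptyElim v⟩, by simp⟩
    · intro _
      rw [hφ]
      exact ⟨fun _ => true, by simp⟩
  · haveI : Nonempty (Fin (red φ).length) := ⟨⟨0, hpos⟩⟩
    rw [graph_eq, weight_eq, Layout.stabilizable_iff]
    constructor
    · exact fun h => good_of_sat φ h
    · rintro ⟨s, hs⟩
      exact sat_of_good φ hs

end Lay

/-- the number of added edges is at most the square of the number of vertices -/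
theorem stabilizableBy_iff (I : Inst) : I.Stabilizable ↔ I.StabilizableBy (I.length * I.length) := by
  constructor
  · rintro ⟨H, h1, h2⟩
    refine ⟨H, h1, ?_, h2⟩
    have h3 : (H.edgeSet \ I.graph.edgeSet).ncard ≤ (Set.univ : Set (Sym2 (Fin I.length))).ncard :=
      Set.ncard_le_ncard (Set.subset_univ _) Set.finite_univ
    refine h3.trans ?_
    rw [Set.ncard_univ, Nat.card_eq_fintype_card]
    have h4 : Fintype.card (Sym2 (Fin I.length)) ≤ Fintype.card (Fin I.length × Fin I.length) :=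
      Fintype.card_le_of_surjective (fun p => s(p.1, p.2)) (by
        intro e
        induction e with
        | _ u v => exact ⟨(u, v), rfl⟩)
    simpa using h4
  · rintro ⟨H, h1, _, h2⟩
    exact ⟨H, h1, h2⟩

end Pool.Agent.H586R2.EA
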