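import Mathlib
import Pool.Agent.H586R2.EA.Red
import Pool.Agent.NPC.Num

set_option autoImplicit false
set_option linter.unusedSectionVars false

namespace Pool.Agent.H586R2.EA

open Pool.Agent.NPC

theorem descC_poly : NPC.Poly (fun p : List (Bool × ℕ) × ℕ => descC p.1 p.2) := by
  unfold descC
  have hj : NPC.Poly (fun p : List (Bool × ℕ) × ℕ => p.2) := NPC.Poly.snd NPC.Poly.id
  have tri : ∀ k : ℕ, NPC.Poly (fun p : List (Bool × ℕ) × ℕ => ((k, p.2, 0, (false, 0)) : Desc)) :=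
    fun k => NPC.Poly.pair (NPC.Poly.const k) (NPC.Poly.pair hj (NPC.Poly.pair (NPC.Poly.const 0) (NPC.Poly.const (false, 0))))
  refine NPC.Poly.append (NPC.Poly.cons (tri 0) (NPC.Poly.cons (tri 1) (NPC.Poly.cons (tri 2) (NPC.Poly.const [])))) ?_
  refine NPC.Poly.flatMap (F := fun (p : List (Bool × ℕ) × ℕ) (l : (Bool × ℕ) × ℕ) =>
    [((3, p.2, l.2, l.1) : Desc), (4, p.2, l.2, l.1)]) (NPC.Poly.zipIdx (NPC.Poly.fst NPC.Poly.id)) ?_
  have hp : NPC.Poly (fun q : (List (Bool × ℕ) × ℕ) × (Bool × ℕ) × ℕ => q.1.2) := NPC.Poly.snd (NPC.Poly.fst NPC.Poly.id)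
  have hl : NPC.Poly (fun q : (List (Bool × ℕ) × ℕ) × (Bool × ℕ) × ℕ => q.2.1) := NPC.Poly.fst (NPC.Poly.snd NPC.Poly.id)
  have hi : NPC.Poly (fun q : (List (Bool × ℕ) × ℕ) × (Bool × ℕ) × ℕ => q.2.2) := NPC.Poly.snd (NPC.Poly.snd NPC.Poly.id)
  exact NPC.Poly.cons (NPC.Poly.pair (NPC.Poly.const 3) (NPC.Poly.pair hp (NPC.Poly.pair hi hl)))
    (NPC.Poly.cons (NPC.Poly.pair (NPC.Poly.const 4) (NPC.Poly.pair hp (NPC.Poly.pair hi hl))) (NPC.Poly.const []))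

theorem descs_poly : NPC.Poly descs := by
  unfold descs
  exact NPC.Poly.flatMap (F := fun (_ : Cnf) (c : List (Bool × ℕ) × ℕ) => descC c.1 c.2)
    (NPC.Poly.zipIdx NPC.Poly.id) (descC_poly.comp (NPC.Poly.snd NPC.Poly.id))

section Ent

theorem ka : NPC.Poly (fun p : Desc × Desc => p.1.1) := NPC.Poly.fst (NPC.Poly.fst NPC.Poly.id)
theorem kb : NPC.Poly (fun p : Desc × Desc => p.2.1) := NPC.Poly.fst (NPC.Poly.snd NPC.Poly.id)
theorem ga : NPC.Poly (fun p : Desc × Desc => p.1.2.1) := NPC.Poly.fst (NPC.Poly.snd (NPC.Poly.fst NPC.Poly.id))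
theorem gb : NPC.Poly (fun p : Desc × Desc => p.2.2.1) := NPC.Poly.fst (NPC.Poly.snd (NPC.Poly.snd NPC.Poly.id))
theorem pa : NPC.Poly (fun p : Desc × Desc => p.1.2.2.1) :=
  NPC.Poly.fst (NPC.Poly.snd (NPC.Poly.snd (NPC.Poly.fst NPC.Poly.id)))
theorem pb : NPC.Poly (fun p : Desc × Desc => p.2.2.2.1) :=
  NPC.Poly.fst (NPC.Poly.snd (NPC.Poly.snd (NPC.Poly.snd NPC.Poly.id)))
theorem la : NPC.Poly (fun p : Desc × Desc => p.1.2.2.2) :=
  NPC.Poly.snd (NPC.Poly.snd (NPC.Poly.snd (NPC.Poly.fst NPC.Poly.id)))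
theorem lb : NPC.Poly (fun p : Desc × Desc => p.2.2.2.2) :=
  NPC.Poly.snd (NPC.Poly.snd (NPC.Poly.snd (NPC.Poly.snd NPC.Poly.id)))

theorem dTri_poly : NPC.Poly (fun p : Desc × Desc => decide (dTri p.1 p.2)) :=
  (NPC.Poly.decide_and (NPC.Poly.decide_lt ka (NPC.Poly.const 3)) (NPC.Poly.decide_and (NPC.Poly.decide_lt kb (NPC.Poly.const 3))
    (NPC.Poly.decide_and (NPC.Poly.decide_not (NPC.Poly.decide_eq ka kb)) (NPC.Poly.decide_eq ga gb)))).congr
      (fun _ => by rw [decide_eq_decide]; exact Iff.rfl)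

theorem dConf_poly : NPC.Poly (fun p : Desc × Desc => decide (dConf p.1 p.2)) :=
  (NPC.Poly.decide_and (NPC.Poly.decide_eq ka (NPC.Poly.const 3)) (NPC.Poly.decide_and (NPC.Poly.decide_eq kb (NPC.Poly.const 3))
    (NPC.Poly.decide_and (NPC.Poly.decide_eq (NPC.Poly.snd la) (NPC.Poly.snd lb))
      (NPC.Poly.decide_not (NPC.Poly.decide_eq (NPC.Poly.fst la) (NPC.Poly.fst lb)))))).congr
      (fun _ => by rw [decide_eq_decide]; exact Iff.rfl)

theorem dLink_poly : NPC.Poly (fun p : Desc × Desc => decide (dLink p.1 p.2)) :=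
  (NPC.Poly.decide_and (NPC.Poly.decide_eq ga gb) (NPC.Poly.decide_or
    (NPC.Poly.decide_and (NPC.Poly.decide_eq ka (NPC.Poly.const 0)) (NPC.Poly.decide_eq kb (NPC.Poly.const 3)))
    (NPC.Poly.decide_and (NPC.Poly.decide_eq ka (NPC.Poly.const 3)) (NPC.Poly.decide_eq kb (NPC.Poly.const 0))))).congr
      (fun _ => by rw [decide_eq_decide]; exact Iff.rfl)

theorem dComp_poly : NPC.Poly (fun p : Desc × Desc => decide (dComp p.1 p.2)) :=
  (NPC.Poly.decide_and (NPC.Poly.decide_eq ga gb) (NPC.Poly.decide_and (NPC.Poly.decide_eq pa pb) (NPC.Poly.decide_or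
    (NPC.Poly.decide_and (NPC.Poly.decide_eq ka (NPC.Poly.const 3)) (NPC.Poly.decide_eq kb (NPC.Poly.const 4)))
    (NPC.Poly.decide_and (NPC.Poly.decide_eq ka (NPC.Poly.const 4)) (NPC.Poly.decide_eq kb (NPC.Poly.const 3)))))).congr
      (fun _ => by rw [decide_eq_decide]; exact Iff.rfl)

theorem ent_poly : NPC.Poly (fun p : Desc × Desc => ent p.1 p.2) := by
  unfold ent
  exact NPC.Poly.ite dTri_poly (NPC.Poly.const _) (NPC.Poly.ite dConf_poly (NPC.Poly.const _)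
    (NPC.Poly.ite (NPC.Poly.decide_or dLink_poly dComp_poly) (NPC.Poly.const _) (NPC.Poly.const _)))

end Ent

theorem red_poly : NPC.Poly red := by
  unfold red
  refine NPC.Poly.map (F := fun (φ : Cnf) (a : Desc) => (descs φ).map (fun b => ent a b)) descs_poly ?_
  refine NPC.Poly.map (F := fun (p : Cnf × Desc) (b : Desc) => ent p.2 b)
    (descs_poly.comp (NPC.Poly.fst NPC.Poly.id)) ?_
  exact ent_poly.comp (NPC.Poly.pair (NPC.Poly.snd (NPC.Poly.fst NPC.Poly.id)) (NPC.Poly.snd NPC.Poly.id))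

theorem redk_poly : NPC.Poly (fun φ : Cnf => (red φ, (red φ).length * (red φ).length)) :=
  NPC.Poly.pair red_poly (NPC.Poly.mul (NPC.Poly.length red_poly) (NPC.Poly.length red_poly))

end Pool.Agent.H586R2.EA
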